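import Pool.Agent.Q288.KP.Prod

/-! # The approximate form of the Knörr–Robinson conjecture -/

set_option autoImplicit false

open scoped Classical

noncomputable section

namespace Pool.Agent.Q288.KP

open Pool.Agent.Y63.KR
open Pool.Agent.Q90.WR (altK krc_altK)
open Pool.Agent.Y63.AWC (numDefectZero)

variable {p : ℕ} [hp : Fact p.Prime]

theorem base_le (G : Type) [Group G] [Finite G]
    (h : ∀ ε : ℝ, 0 < ε → ∃ K : ℝ, 0 < K ∧ ∀ j : ℕ, (altK p (SqN j G) : ℝ) ≤
      K * (pPart p (SqN j G) : ℝ) ^ ε * numDefectZero p (SqN j G)) :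
    altK p G ≤ numDefectZero p G :=
  sq_le (x := fun j => altK p (SqN j G)) (y := fun j => (numDefectZero p (SqN j G) : ℤ))
    (S := fun j => (pPart p (SqN j G) : ℝ)) (M := (pPart p G : ℝ))
    (fun j => (recursion j G).1) (fun j => (recursion j G).2.1)
    (by exact_mod_cast pPart_pos hp.out G)
    (fun j => by exact_mod_cast pPart_pos hp.out (SqN j G))
    (fun j => by rw [pPart_SqN]; push_cast; exact le_rfl)
    (Or.inr (Int.natCast_nonneg _))
    (fun ε hε => by
      obtain ⟨K, hK, h1⟩ := h ε hε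
      exact ⟨K, hK, fun j => by have := h1 j; push_cast; exact this⟩)

theorem base_ge (G : Type) [Group G] [Finite G]
    (h : ∀ ε : ℝ, 0 < ε → ∃ K : ℝ, 0 < K ∧ ∀ j : ℕ, (numDefectZero p (SqN j G) : ℝ) ≤
      K * (pPart p (SqN j G) : ℝ) ^ ε * altK p (SqN j G)) :
    (numDefectZero p G : ℤ) ≤ altK p G :=
  sq_le (y := fun j => altK p (SqN j G)) (x := fun j => (numDefectZero p (SqN j G) : ℤ))
    (S := fun j => (pPart p (SqN j G) : ℝ)) (M := (pPart p G : ℝ))
    (fun j => (recursion j G).2.1) (fun j => (recursion j G).1)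
    (by exact_mod_cast pPart_pos hp.out G)
    (fun j => by exact_mod_cast pPart_pos hp.out (SqN j G))
    (fun j => by rw [pPart_SqN]; push_cast; exact le_rfl)
    (Or.inl (Int.natCast_nonneg _))
    (fun ε hε => by
      obtain ⟨K, hK, h1⟩ := h ε hε
      exact ⟨K, hK, fun j => by have := h1 j; push_cast; exact this⟩)

theorem closed_SqN (C : (G : Type) → Group G → Prop)
    (hC : ∀ (G : Type) [i : Group G] [Finite G], C G i → C (G × G) inferInstance) :
    ∀ (j : ℕ) (G : Type) [i : Group G] [Finite G], C G i → C (SqN j G) inferInstance := by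
  intro j
  induction j with
  | zero => intro G _ _ h; exact h
  | succ j ih => intro G _ _ h; exact ih (G × G) (hC G h)

theorem le_mul_rpow {x y : ℝ} (h : x ≤ y) (hy : 0 ≤ y) {ε : ℝ} (hε : 0 < ε) (G : Type) :
    x ≤ 1 * (pPart p G : ℝ) ^ ε * y := by
  have h1 : (1 : ℝ) ≤ (pPart p G : ℝ) ^ ε :=
    Real.one_le_rpow (by exact_mod_cast pPart_pos hp.out G) hε.le
  rw [one_mul]
  nlinarith

end Pool.Agent.Q288.KP
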