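import Mathlib

set_option autoImplicit false

namespace Pool.Agent.Q288.KP

/-- an approximate inequality along iterated squares implies the exact one at the bottom -/
theorem sq_le {x y : ℕ → ℤ} (hx : ∀ j, x (j + 1) = x j ^ 2) (hy : ∀ j, y (j + 1) = y j ^ 2)
    {S : ℕ → ℝ} {M : ℝ} (hM : 1 ≤ M) (hS0 : ∀ j, 0 < S j) (hS : ∀ j, S j ≤ M ^ (2 ^ j))
    (h0 : 0 ≤ x 0 ∨ 0 ≤ y 0)
    (h : ∀ ε : ℝ, 0 < ε → ∃ C : ℝ, 0 < C ∧ ∀ j, (x j : ℝ) ≤ C * S j ^ ε * y j) : x 0 ≤ y 0 := by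
  by_contra hcon
  push Not at hcon
  have hy0 : 0 ≤ y 0 := by
    rcases h0 with h0 | h0
    · by_contra hn
      push Not at hn
      obtain ⟨C, hC, h1⟩ := h 1 one_pos
      have h2 := h1 0
      have h3 : (0 : ℝ) ≤ x 0 := by exact_mod_cast h0
      have h4 : (y 0 : ℝ) < 0 := by exact_mod_cast hn
      have h5 : 0 < C * S 0 ^ (1 : ℝ) := mul_pos hC (Real.rpow_pos_of_pos (hS0 0) _)
      nlinarith
    · exact h0
  have hy1 : 1 ≤ y 0 := by
    rcases hy0.eq_or_lt with h1 | h1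
    · obtain ⟨C, hC, h2⟩ := h 1 one_pos
      have h3 := h2 0
      rw [← h1, Int.cast_zero, mul_zero] at h3
      have h4 : (0 : ℝ) < x 0 := by exact_mod_cast (by omega : 0 < x 0)
      linarith
    · omega
  have hxp : ∀ j, x j = x 0 ^ (2 ^ j) := by
    intro j
    induction j with
    | zero => simp
    | succ j ih => rw [hx, ih, ← pow_mul, pow_succ]
  have hyp : ∀ j, y j = y 0 ^ (2 ^ j) := by
    intro j
    induction j with
    | zero => simp
    | succ j ih => rw [hy, ih, ← pow_mul, pow_succ]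
  have hyr : (0 : ℝ) < y 0 := by exact_mod_cast (by omega : 0 < y 0)
  have hlt : (y 0 : ℝ) < x 0 := by exact_mod_cast hcon
  have hxr : (0 : ℝ) < x 0 := hyr.trans hlt
  obtain ⟨r, hr1, hr2⟩ : ∃ r : ℝ, 1 < r ∧ r * r * y 0 ≤ x 0 := by
    refine ⟨√((x 0 : ℝ) / y 0), ?_, ?_⟩
    · rw [Real.lt_sqrt (by norm_num), one_pow, one_lt_div hyr]
      exact hlt
    · rw [Real.mul_self_sqrt (div_nonneg hxr.le hyr.le), div_mul_cancel₀ _ hyr.ne']
  have hr0 : 0 < r := by linarith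
  -- the exponent
  have hlim : Filter.Tendsto (fun ε : ℝ => M ^ ε) (nhdsWithin 0 (Set.Ioi 0)) (nhds 1) := by
    have h3 : Filter.Tendsto (fun ε : ℝ => M ^ ε) (nhds 0) (nhds (M ^ (0 : ℝ))) := by
      apply ContinuousAt.tendsto
      apply ContinuousAt.rpow continuousAt_const continuous_id.continuousAt
      left; linarith
    rw [Real.rpow_zero] at h3
    exact h3.mono_left nhdsWithin_le_nhds
  have hev : ∀ᶠ ε : ℝ in nhdsWithin 0 (Set.Ioi 0), M ^ ε < r := hlim.eventually (gt_mem_nhds hr1)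
  obtain ⟨ε, hε, hε0⟩ := (hev.and self_mem_nhdsWithin).exists
  obtain ⟨C, hC, hCx⟩ := h ε hε0
  have hkey : ∀ j : ℕ, r ^ (2 ^ j) ≤ C := by
    intro j
    have h1 := hCx j
    rw [hxp, hyp] at h1
    push_cast at h1
    have h2 : S j ^ ε ≤ r ^ (2 ^ j) := by
      calc S j ^ ε ≤ (M ^ (2 ^ j)) ^ ε :=
            Real.rpow_le_rpow (hS0 _).le (hS _) (le_of_lt hε0)
        _ = (M ^ ε) ^ (2 ^ j) := by
            rw [← Real.rpow_natCast _ (2 ^ j), ← Real.rpow_natCast _ (2 ^ j),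
              ← Real.rpow_mul (by positivity), ← Real.rpow_mul (by positivity), mul_comm]
        _ ≤ r ^ (2 ^ j) := by
            apply pow_le_pow_left₀ _ hε.le
            exact Real.rpow_nonneg (by linarith) _
    have h3 : (r ^ (2 ^ j)) * (r ^ (2 ^ j)) * (y 0 : ℝ) ^ (2 ^ j) ≤ (x 0 : ℝ) ^ (2 ^ j) := by
      rw [← mul_pow, ← mul_pow]
      exact pow_le_pow_left₀ (by positivity) hr2 _
    have h4 : (0 : ℝ) < (y 0 : ℝ) ^ (2 ^ j) := pow_pos hyr _
    have h5 : 0 < r ^ (2 ^ j) := pow_pos hr0 _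
    have h6 : (r ^ (2 ^ j)) * (r ^ (2 ^ j)) * (y 0 : ℝ) ^ (2 ^ j) ≤
        C * r ^ (2 ^ j) * (y 0 : ℝ) ^ (2 ^ j) := by
      refine (h3.trans h1).trans ?_
      exact mul_le_mul_of_nonneg_right (mul_le_mul_of_nonneg_left h2 hC.le) h4.le
    exact le_of_mul_le_mul_right (le_of_mul_le_mul_right h6 h4) h5
  obtain ⟨n, hn⟩ := pow_unbounded_of_one_lt C hr1
  have h1 := hkey n
  have h2 : r ^ n ≤ r ^ (2 ^ n) := pow_le_pow_right₀ hr1.le Nat.lt_two_pow_self.le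
  linarith

end Pool.Agent.Q288.KP
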