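import Pool.Agent.Q99.AS.Char
import Pool.Agent.Q90.WR.Krq
import Pool.Agent.Q288.KP.Num

/-! # The Knörr–Robinson numbers of direct products -/

set_option autoImplicit false

open scoped Classical

noncomputable section

namespace Pool.Agent.Q288.KP

open Pool.Agent.Y63.KR Pool.Agent.Helper884.IC
open Pool.Agent.Q90.WR (DefZero fac_le defZero_iff deg_pos altK krc_altK)
open Pool.Agent.Y63.AWC (numDefectZero IsIrreducibleCharacter)
open Pool.Agent.Q99.AS

/-- The `p`-part of the order of `G`. -/
def pPart (p : ℕ) (G : Type) : ℕ := p ^ (Nat.card G).factorization p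

theorem pPart_pos {p : ℕ} (hp : p.Prime) (G : Type) : 1 ≤ pPart p G := Nat.one_le_pow _ _ hp.pos

theorem pPart_prod {p : ℕ} (G H : Type) [Group G] [Finite G] [Group H] [Finite H] :
    pPart p (G × H) = pPart p G * pPart p H := by
  unfold pPart
  rw [Nat.card_prod, Nat.factorization_mul Nat.card_pos.ne' Nat.card_pos.ne', Finsupp.add_apply,
    pow_add]

variable {p : ℕ} [hp : Fact p.Prime]

theorem defectZero_prod (G H : Type) [Group G] [Finite G] [Group H] [Finite H] :
    numDefectZero p (G × H) = numDefectZero p G * numDefectZero p H := by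
  have := Fintype.ofFinite G
  have := Fintype.ofFinite H
  have h := card_prod (G := G) (H := H) ({()} : Finset Unit) (DefZero p) (fun _ => DefZero p)
    (fun _ => DefZero p) (by
      intro θ ψ h1 h2
      obtain ⟨m, hm, hm'⟩ := deg_pos h1
      obtain ⟨n, hn, hn'⟩ := deg_pos h2
      have e : ten θ ψ 1 = ((m * n : ℕ) : ℂ) := by
        change θ 1 * ψ 1 = _
        rw [hm', hn']; push_cast; ring
      have l1 := fac_le (p := p) h1 hm'
      have l2 := fac_le (p := p) h2 hn'
      rw [defZero_iff e, Nat.card_prod, Nat.factorization_mul hm.ne' hn.ne',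
        Nat.factorization_mul Nat.card_pos.ne' Nat.card_pos.ne', Finsupp.add_apply,
        Finsupp.add_apply]
      have e1 : (∃ i ∈ ({()} : Finset Unit), DefZero p θ ∧ DefZero p ψ) ↔
          (DefZero p θ ∧ DefZero p ψ) := by simp
      rw [e1, defZero_iff hm', defZero_iff hn']
      omega) (by
      intro _ _ i _ j _ _ _ _ _
      rfl)
  rw [Finset.sum_singleton] at h
  exact h

theorem isConj_prod' {G H : Type} [Group G] [Group H] {a b : G} {c d : H} :
    IsConj (a, c) (b, d) ↔ IsConj a b ∧ IsConj c d := isConj_prod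

theorem classes_prod (G H : Type) [Group G] [Group H] :
    Nat.card (ConjClasses (G × H)) = Nat.card (ConjClasses G) * Nat.card (ConjClasses H) := by
  rw [← Nat.card_prod]
  apply Nat.card_congr
  refine Equiv.ofBijective (fun c => (ConjClasses.map (MonoidHom.fst G H) c,
    ConjClasses.map (MonoidHom.snd G H) c)) ⟨?_, ?_⟩
  · intro c d
    obtain ⟨x, rfl⟩ := ConjClasses.exists_rep c
    obtain ⟨y, rfl⟩ := ConjClasses.exists_rep d
    intro h
    obtain ⟨a, c⟩ := x
    obtain ⟨b, d⟩ := y
    rw [Prod.mk.injEq] at h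
    have h1 : ConjClasses.mk a = ConjClasses.mk b := h.1
    have h2 : ConjClasses.mk c = ConjClasses.mk d := h.2
    rw [ConjClasses.mk_eq_mk_iff_isConj] at h1 h2 ⊢
    exact isConj_prod'.2 ⟨h1, h2⟩
  · rintro ⟨c, d⟩
    obtain ⟨x, rfl⟩ := ConjClasses.exists_rep c
    obtain ⟨y, rfl⟩ := ConjClasses.exists_rep d
    exact ⟨ConjClasses.mk (x, y), rfl⟩

theorem classes_congr {G H : Type} [Group G] [Group H] (e : G ≃* H) :
    Nat.card (ConjClasses G) = Nat.card (ConjClasses H) := by
  apply Nat.card_congr
  refine Equiv.ofBijective (ConjClasses.map (e : G →* H)) ⟨?_, ?_⟩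
  · intro c d
    obtain ⟨x, rfl⟩ := ConjClasses.exists_rep c
    obtain ⟨y, rfl⟩ := ConjClasses.exists_rep d
    intro h
    have h1 : ConjClasses.mk (e x) = ConjClasses.mk (e y) := h
    rw [ConjClasses.mk_eq_mk_iff_isConj] at h1 ⊢
    have h2 := (e.symm : H →* G).map_isConj h1
    simpa using h2
  · exact ConjClasses.map_surjective e.surjective

omit hp in
theorem altSum_eq {G : Type} [Group G] [Finite G] (f : Subgroup G → ℤ) (hf : IsoInv f) :
    alternatingSum p G f = altSum p (⊥ : Subgroup G) f := by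
  have : Fintype {σ : Set (Subgroup G) // IsPChain p σ} := Fintype.ofFinite _
  have : Fintype {σ : Set (Subgroup G) // IsCh p ⊥ σ} := Fintype.ofFinite _
  have hc : ConjInv f := fun g H => (hf _ _ ⟨(cj g H).symm⟩)
  have h1 := card_mul_alternatingSum (p := p) f hf
  have h2 := card_mul_altSum (p := p) (O := (⊥ : Subgroup G)) inferInstance f hc
  have h3 : ∀ σ : Set (Subgroup G), IsPChain p σ ↔ IsCh p (⊥ : Subgroup G) σ := fun σ =>
    ⟨fun h => ⟨h.chain, h.isPGroup, fun P hP => bot_lt_iff_ne_bot.2 (h.ne_bot P hP)⟩,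
      fun h => ⟨h.chain, h.isPGroup, fun P hP => (h.lt P hP).ne'⟩⟩
  have h4 : (Nat.card G : ℤ) * alternatingSum p G f = (Nat.card G : ℤ) * altSum p ⊥ f := by
    rw [h1, h2]
    exact Fintype.sum_equiv (Equiv.subtypeEquivRight h3) _ _ fun σ => rfl
  have h0 : (Nat.card G : ℤ) ≠ 0 := by exact_mod_cast Nat.card_pos.ne'
  exact mul_left_cancel₀ h0 h4

theorem isoInv_classes (G : Type) [Group G] :
    IsoInv (G := G) (fun H => (Nat.card (ConjClasses H) : ℤ)) := by
  rintro H K ⟨e⟩
  change (Nat.card (ConjClasses H) : ℤ) = Nat.card (ConjClasses K)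
  rw [classes_congr e]

theorem altK_prod (G H : Type) [Group G] [Finite G] [Group H] [Finite H] :
    altK p (G × H) = altK p G * altK p H := by
  unfold altK
  rw [altSum_eq _ (isoInv_classes _), altSum_eq _ (isoInv_classes _),
    altSum_eq _ (isoInv_classes _)]
  have hc : ∀ (G : Type) [Group G], ConjInv (G := G) (fun H => (Nat.card (ConjClasses H) : ℤ)) :=
    fun G _ g H => isoInv_classes G _ _ ⟨(cj g H).symm⟩
  have h := altSum_prod (p := p) (O₁ := (⊥ : Subgroup G)) (O₂ := (⊥ : Subgroup H))
    (IsPGroup.of_bot) (IsPGroup.of_bot) inferInstance inferInstance ({()} : Finset Unit)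
    (fun K => (Nat.card (ConjClasses K) : ℤ)) (fun _ K => (Nat.card (ConjClasses K) : ℤ))
    (fun _ K => (Nat.card (ConjClasses K) : ℤ)) (hc _) (fun _ => hc _) (fun _ => hc _) (by
      intro H K
      rw [Finset.sum_singleton, classes_congr (Subgroup.prodEquiv H K), classes_prod]
      push_cast
      rfl)
  rw [Finset.sum_singleton, Subgroup.bot_prod_bot] at h
  exact h

/-! ### iterated squares -/

/-- the direct power of exponent `2 ^ n` -/
def SqN : ℕ → Type → Type
  | 0, G => G
  | n + 1, G => SqN n (G × G)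

/-- the group structure -/
@[instance_reducible] def groupSqN : (n : ℕ) → (G : Type) → Group G → Group (SqN n G)
  | 0, _, i => i
  | n + 1, G, i => groupSqN n (G × G) (@Prod.instGroup G G i i)

instance instGroupSqN (n : ℕ) (G : Type) [i : Group G] : Group (SqN n G) := groupSqN n G i

theorem finite_SqN : ∀ (n : ℕ) (G : Type) [Finite G], Finite (SqN n G)
  | 0, _, i => i
  | n + 1, G, _ => finite_SqN n (G × G)

instance (n : ℕ) (G : Type) [Finite G] : Finite (SqN n G) := finite_SqN n G

theorem recursion : ∀ (j : ℕ) (G : Type) [Group G] [Finite G],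
    altK p (SqN (j + 1) G) = altK p (SqN j G) ^ 2 ∧
    (numDefectZero p (SqN (j + 1) G) : ℤ) = (numDefectZero p (SqN j G) : ℤ) ^ 2 ∧
    pPart p (SqN (j + 1) G) = pPart p (SqN j G) ^ 2 := by
  intro j
  induction j with
  | zero =>
    intro G _ _
    refine ⟨?_, ?_, ?_⟩
    · exact (altK_prod G G).trans (pow_two _).symm
    · have h : numDefectZero p (G × G) = numDefectZero p G ^ 2 :=
        (defectZero_prod G G).trans (pow_two _).symm
      exact_mod_cast h
    · exact (pPart_prod G G).trans (pow_two _).symm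
  | succ j ih =>
    intro G _ _
    exact ih (G × G)

theorem pPart_SqN (G : Type) [Group G] [Finite G] (j : ℕ) :
    pPart p (SqN j G) = pPart p G ^ 2 ^ j := by
  induction j with
  | zero => rw [pow_zero, pow_one]; rfl
  | succ j ih => rw [(recursion j G).2.2, ih, ← pow_mul, pow_succ]

end Pool.Agent.Q288.KP
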